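import Pool.Agent.Helper82.Nut.Cubic

/-!
The sets `𝔑^3_ℓ` for all `ℓ ≥ 17` and for `ℓ = 9, 12, 15`.
-/

open PolyNut

namespace Pool.Agent.Results.MP_ae7cea_co.CubicOrders

theorem result (l : ℕ) (hl : l = 9 ∨ l = 12 ∨ l = 15 ∨ 17 ≤ l) :
    (Even l → orders 3 l = {n | 1 ≤ n}) ∧
    (Odd l → orders 3 l = {n | 1 ≤ n ∧ Even n}) := by
  constructor
  · intro he
    refine cubic_orders_even he ?_
    obtain ⟨m, hm⟩ := he
    omega
  · intro ho
    refine cubic_orders_odd ho ?_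
    obtain ⟨m, hm⟩ := ho
    omega

end Pool.Agent.Results.MP_ae7cea_co.CubicOrders
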