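import Pool.Agent.Helper82.Nut.Range

/-!
For every degree `d ≥ 3` and every `ℓ ≥ 6 d + 18` the set `𝔑^d_ℓ` is determined.
-/

open PolyNut

namespace Pool.Agent.Results.MP_ae7cea_co.LinearRange

theorem result (d l : ℕ) (hd : 3 ≤ d) (hl : 6 * d + 18 ≤ l) :
    (Even (d * l) → orders d l = {n | 1 ≤ n}) ∧
    (Odd (d * l) → orders d l = {n | 1 ≤ n ∧ Even n}) :=
  orders_range hd hl

end Pool.Agent.Results.MP_ae7cea_co.LinearRange
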