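import Pool.Agent.Helper82.Nut.Transfer

/-!
If a `d`-regular nut graph of order `ℓ` exists, then `𝔑^d_ℓ = ℕ`. The same for graphs with
semi-edges and even orbit lengths.
-/

open PolyNut

namespace Pool.Agent.Results.MP_ae7cea_co.NutTransfer

/-- `M` is the adjacency matrix of a `d`-regular graph on `Fin l` in which every vertex may carry
one semi-edge (a diagonal entry `1`), and `M` has the nut property: its kernel is one dimensional
and contains a vector without zero entries. -/
def IsSemiNut (d l : ℕ) (M : Matrix (Fin l) (Fin l) ℝ) : Prop :=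
  M.IsSymm ∧ (∀ i j, M i j = 0 ∨ M i j = 1) ∧ (∀ i, ∑ j, M i j = d) ∧
    Module.finrank ℝ (LinearMap.ker M.mulVecLin) = 1 ∧
    ∃ x ∈ LinearMap.ker M.mulVecLin, ∀ v, x v ≠ 0

theorem result :
    (∀ d l : ℕ, 1 ∈ orders d l → orders d l = {n | 1 ≤ n}) ∧
    (∀ (d l : ℕ) (M : Matrix (Fin l) (Fin l) ℝ), 3 ≤ d → IsSemiNut d l M →
      ∀ n, 1 ≤ n → Even n → n ∈ orders d l) := by
  refine ⟨fun d l h => transfer h, ?_⟩
  rintro d l M hd ⟨hsym, hzo, hrow, hr, x, hx, hne⟩ n hn he
  have hl : 2 ≤ l := by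
    rcases Nat.lt_or_ge l 2 with h | h
    · exfalso
      have hl : l = 0 ∨ l = 1 := by omega
      rcases hl with rfl | rfl
      · have : Subsingleton (LinearMap.ker M.mulVecLin) :=
          ⟨fun a b => Subtype.ext (funext fun i => i.elim0)⟩
        rw [Module.finrank_zero_of_subsingleton] at hr
        norm_num at hr
      · have h1 := hrow 0
        have h2 := hzo 0 0
        simp only [Finset.univ_unique, Fin.default_eq_zero, Fin.isValue, Finset.sum_singleton] at h1
        have hd' : (3 : ℝ) ≤ d := by exact_mod_cast hd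
        rcases h2 with h2 | h2 <;> rw [h2] at h1 <;> linarith
    · exact h
  refine SA.even_mem ⟨fun i j => M i j, x, ⟨⟨?_, hne, ?_, ?_⟩, hzo, hrow⟩⟩ hl hd hn he
  · intro a b
    exact (hsym.apply a b).symm
  · intro a
    exact congrFun (LinearMap.mem_ker.mp hx) a
  · intro y hy
    rw [finrank_eq_one_iff'] at hr
    obtain ⟨⟨w, hw⟩, hw0, hspan⟩ := hr
    have hyk : y ∈ LinearMap.ker M.mulVecLin := by
      rw [LinearMap.mem_ker]; funext a; exact hy a
    obtain ⟨c1, h1⟩ := hspan ⟨x, hx⟩
    obtain ⟨c2, h2⟩ := hspan ⟨y, hyk⟩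
    have h1' : c1 • w = x := congrArg Subtype.val h1
    have h2' : c2 • w = y := congrArg Subtype.val h2
    have hc1 : c1 ≠ 0 := by
      intro h0
      apply hne ⟨0, by omega⟩
      rw [← h1', h0]; simp
    refine ⟨c2 / c1, fun a => ?_⟩
    rw [← h2', ← h1']
    simp only [Pi.smul_apply, smul_eq_mul]
    field_simp

end Pool.Agent.Results.MP_ae7cea_co.NutTransfer
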