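import Pool.Agent.Helper82.Nut.SmallOrders

/-!
For every degree `4 ≤ d ≤ 12` the set `𝔑^d_ℓ` is determined for all `ℓ ≥ 16` and for the smaller
orders `ℓ` in the list below.
-/

open PolyNut

namespace Pool.Agent.Results.MP_ae7cea_co.SmallDegrees

theorem result (d l : ℕ) (hd : 4 ≤ d) (hd' : d ≤ 12)
    (hl : 16 ≤ l ∨ (d, l) ∈ ([(4, 8), (4, 10), (4, 12), (4, 14), (4, 15), (5, 10), (5, 11),
      (5, 12), (5, 13), (5, 14), (5, 15), (6, 12), (6, 13), (6, 14), (6, 15), (7, 11), (7, 12),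
      (7, 13), (7, 14), (7, 15), (8, 12), (8, 14), (8, 15), (9, 13), (9, 15), (10, 15),
      (11, 15)] : List (ℕ × ℕ))) :
    (Even (d * l) → orders d l = {n | 1 ≤ n}) ∧
    (Odd (d * l) → orders d l = {n | 1 ≤ n ∧ Even n}) :=
  orders_small hd hd' hl

end Pool.Agent.Results.MP_ae7cea_co.SmallDegrees
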